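import Pool.Agent.Lib_MP_6fa13c_lc.Main3

/-!
# MP_6fa13c_lc, Q1: a `Ψ_gss`-large cardinal in a model of ZFC without globally superstrong cardinals

The direction of Q1 from `Ψ_gss`-largeness to globally superstrong cardinals fails as well: if `κ`
is `c`-extendible for some inaccessible `c > κ`, then for the least inaccessible `d > κ` the model
`V_d` of ZFC has a `Ψ_gss`-large cardinal (below `κ`), but no globally superstrong cardinal.
-/

namespace Pool.Agent.Results.MP_6fa13c_lc.LargeNoSuperstrong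

open ZFSet Ordinal Order Pool.Agent.Forcing Pool.Agent.MP_6fa13c_lc

/-- **Main theorem.**
1. If some cardinal `κ` is `c`-extendible for an inaccessible `c > κ`, then there is an inaccessible
`d` such that the model `V_d` of ZFC has a `Ψ_gss`-large cardinal but no globally superstrong
cardinal; so the equivalence of Q1 fails in `V_d`.
2. Here `d` may be taken to be the least inaccessible cardinal above `κ`, and then there is a
cardinal `δ < κ` which is `Ψ_gss`-large in `V_d`. -/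
theorem result :
    ((∃ (κ : Ordinal.{0}) (c : Cardinal.{0}), c.IsInaccessible ∧ κ < c.ord ∧
        ExtendibleTo κ c.ord) →
      ∃ d : Cardinal.{0}, d.IsInaccessible ∧ ModelsZFC (memOn (V_ d.ord)) ∧
        (∃ δ < d.ord, IsCard δ ∧ PsiLargeIn d.ord PsiGss δ) ∧
        (∀ μ, ¬ GloballySuperstrongIn d.ord μ) ∧ ¬ EquivalenceIn d.ord) ∧
    (∀ (κ : Ordinal.{0}) (c d : Cardinal.{0}), c.IsInaccessible → κ < c.ord →
      ExtendibleTo κ c.ord → d.IsInaccessible → κ < d.ord →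
      (∀ d' : Cardinal.{0}, d'.IsInaccessible → κ < d'.ord → d ≤ d') →
      ModelsZFC (memOn (V_ d.ord)) ∧ (∃ δ < κ, IsCard δ ∧ PsiLargeIn d.ord PsiGss δ) ∧
        (∀ μ, ¬ GloballySuperstrongIn d.ord μ) ∧ ¬ EquivalenceIn d.ord) := by
  have key : ∀ (κ : Ordinal.{0}) (c : Cardinal.{0}), c.IsInaccessible → κ < c.ord →
      ExtendibleTo κ c.ord → ∃ d : Cardinal.{0}, d.IsInaccessible ∧ κ < d.ord ∧
      (∀ d' : Cardinal.{0}, d'.IsInaccessible → κ < d'.ord → d ≤ d') ∧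
      ModelsZFC (memOn (V_ d.ord)) ∧ (∃ δ < κ, IsCard δ ∧ PsiLargeIn d.ord PsiGss δ) ∧
        (∀ μ, ¬ GloballySuperstrongIn d.ord μ) ∧ ¬ EquivalenceIn d.ord := by
    intro κ c hc hκ h
    obtain ⟨ζ, e, he⟩ := h.ex hc hκ
    obtain ⟨Ω, _, hno, ζ₀, h0⟩ := he.least
    obtain ⟨d, hd, rfl⟩ := h0.rep.inaccessible
    obtain ⟨⟨δ, hδ, h1, h2⟩, h3⟩ := main3 h0 hno
    refine ⟨d, hd, h0.lt, ?_, h0.rep.modelsZFC, ⟨δ, hδ, h1, h2⟩, h3, ?_⟩
    · intro d' hd' hκ'
      by_contra hcon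
      push Not at hcon
      exact hno d'.ord hκ' (Cardinal.ord_lt_ord.2 hcon) (repl_of_inaccessible hd')
    · intro heq
      obtain ⟨μ, _, hμ⟩ := (heq δ (hδ.trans h0.lt) h1).1 h2
      exact h3 μ hμ
  refine ⟨?_, ?_⟩
  · rintro ⟨κ, c, hc, hκ, h⟩
    obtain ⟨d, hd, hκd, _, h1, ⟨δ, hδ, h2, h3⟩, h4, h5⟩ := key κ c hc hκ h
    exact ⟨d, hd, h1, ⟨δ, hδ.trans hκd, h2, h3⟩, h4, h5⟩
  · intro κ c d hc hκ h hd hκd hmin
    obtain ⟨d₀, hd₀, hκd₀, hmin₀, h1⟩ := key κ c hc hκ h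
    have : d = d₀ := le_antisymm (hmin d₀ hd₀ hκd₀) (hmin₀ d hd hκd)
    rw [this]
    exact h1

end Pool.Agent.Results.MP_6fa13c_lc.LargeNoSuperstrong
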