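import Pool.Agent.Lib_MP_6fa13c_lc.Main2
import Pool.Agent.Lib_MP_6fa13c_lc.Inacc

/-!
# MP_6fa13c_lc, Q1: ZFC does not prove that `Ψ_gss`-largeness of a cardinal is equivalent to the
existence of a globally superstrong cardinal below or equal to it

The equivalence fails in every `V_κ`, `κ` inaccessible, which has a globally superstrong cardinal:
it fails at the successor `μ⁺` of the least globally superstrong cardinal `μ`, which is not
`Ψ_gss`-large. If there is a `1`-extendible cardinal `κ`, then `κ` is inaccessible, `V_κ` is a model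
of ZFC, and it has a globally superstrong cardinal.
-/

namespace Pool.Agent.Results.MP_6fa13c_lc.SuccessorFails

open ZFSet Ordinal Order Pool.Agent.Forcing Pool.Agent.MP_6fa13c_lc

/-- **Main theorem.**
1. If there is a `1`-extendible cardinal, then there is a transitive model `V_κ` of ZFC in which
the equivalence of Q1 fails.
2. For every inaccessible `κ = c.ord`, `V_κ` is a model of ZFC, and if it has a globally
superstrong cardinal, then the equivalence of Q1 fails in `V_κ`; namely, if `μ` is the least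
globally superstrong cardinal of `V_κ`, then its successor cardinal `μ⁺ < κ` is not
`Ψ_gss`-large in `V_κ`.
3. If `κ` is `1`-extendible, then `κ` is inaccessible and `V_κ` has a globally superstrong
cardinal. -/
theorem result :
    ((∃ κ, OneExtendible κ) → ∃ κ, ModelsZFC (memOn (V_ κ)) ∧ ¬ EquivalenceIn κ) ∧
    (∀ c : Cardinal.{0}, c.IsInaccessible → ModelsZFC (memOn (V_ c.ord)) ∧
      ((∃ μ, GloballySuperstrongIn c.ord μ) → ¬ EquivalenceIn c.ord) ∧
      ∀ μ, GloballySuperstrongIn c.ord μ → (∀ ν < μ, ¬ GloballySuperstrongIn c.ord ν) →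
        IsCard (succ μ.card).ord ∧ μ < (succ μ.card).ord ∧ (succ μ.card).ord < c.ord ∧
          ¬ PsiLargeIn c.ord PsiGss (succ μ.card).ord) ∧
    (∀ κ, OneExtendible κ → (∃ c : Cardinal.{0}, c.IsInaccessible ∧ κ = c.ord) ∧
      ∃ μ, GloballySuperstrongIn κ μ) := by
  have key : ∀ κ, Repl κ → ∀ μ, GloballySuperstrongIn κ μ →
      (∀ ν < μ, ¬ GloballySuperstrongIn κ ν) →
        IsCard (succ μ.card).ord ∧ μ < (succ μ.card).ord ∧ (succ μ.card).ord < κ ∧
          ¬ PsiLargeIn κ PsiGss (succ μ.card).ord := by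
    intro κ hκ μ hμ hmin
    obtain ⟨hωμ, h1, h2⟩ := main2 hκ hμ hmin
    refine ⟨⟨?_, ?_⟩, ?_, h1, h2⟩
    · rw [← Cardinal.ord_aleph0, Cardinal.ord_le_ord]
      exact (Ordinal.aleph0_le_card.2 hωμ.le).trans (le_succ _)
    · rw [Cardinal.card_ord]
    · rw [Cardinal.lt_ord]
      exact lt_succ _
  have key2 : ∀ κ, Repl κ → (∃ μ, GloballySuperstrongIn κ μ) → ¬ EquivalenceIn κ := by
    intro κ hκ h heq
    let μ := WellFounded.min lt_wf {μ : Ordinal.{0} | GloballySuperstrongIn κ μ} h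
    have hμ : GloballySuperstrongIn κ μ :=
      WellFounded.min_mem lt_wf {μ : Ordinal.{0} | GloballySuperstrongIn κ μ} h
    have hmin : ∀ ν < μ, ¬ GloballySuperstrongIn κ ν := fun ν hν h1 =>
      WellFounded.not_lt_min lt_wf {μ : Ordinal.{0} | GloballySuperstrongIn κ μ} h1 hν
    obtain ⟨h1, h2, h3, h4⟩ := key κ hκ μ hμ hmin
    exact h4 ((heq _ h3 h1).2 ⟨μ, h2.le, hμ⟩)
  have key3 : ∀ κ, OneExtendible κ → Repl κ ∧ ∃ μ, GloballySuperstrongIn κ μ := by
    intro κ hκ
    obtain ⟨lam, j, hj⟩ := exists_OE hκ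
    obtain ⟨A, hA, hAtr, hom, _, hext⟩ := hj.reflect
    obtain ⟨μ, _, _, hμ⟩ := gss_of_ext hj.repl hA hAtr hom hext
    exact ⟨hj.repl, μ, hμ⟩
  refine ⟨?_, ?_, ?_⟩
  · rintro ⟨κ, hκ⟩
    obtain ⟨h1, h2⟩ := key3 κ hκ
    exact ⟨κ, h1.modelsZFC, key2 κ h1 h2⟩
  · intro c hc
    have h1 := repl_of_inaccessible hc
    exact ⟨h1.modelsZFC, key2 _ h1, key _ h1⟩
  · intro κ hκ
    obtain ⟨h1, h2⟩ := key3 κ hκ
    exact ⟨h1.inaccessible, h2⟩

end Pool.Agent.Results.MP_6fa13c_lc.SuccessorFails
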